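import Pool.Agent.Helper46.RO.Base

/-!
# Elements with non-zero character fix an end
-/

namespace Pool.Agent.Helper41.RO

open Pool.Agent.Helper46.RO

universe u

variable {L : Type u} [Group L] {X : Finset L} {χ : L → ℝ}

theorem actF_one' (hχ : IsChar χ) (C : ℝ → Set L) : actF χ 1 C = C := by
  funext s
  ext h
  change (1 : L)⁻¹ * h ∈ C (s - χ 1) ↔ h ∈ C s
  rw [inv_one, one_mul, hχ.one, sub_zero]

theorem actF_mul' (hχ : IsChar χ) (a b : L) (C : ℝ → Set L) :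
    actF χ (a * b) C = actF χ a (actF χ b C) := by
  funext s
  ext h
  change (a * b)⁻¹ * h ∈ C (s - χ (a * b)) ↔ b⁻¹ * (a⁻¹ * h) ∈ C (s - χ a - χ b)
  rw [hχ, mul_inv_rev, mul_assoc, sub_sub]

/-- The end of a element with positive character. -/
def endOf (X : Finset L) (χ : L → ℝ) (g : L) : ℝ → Set L :=
  fun s => {h | h ∈ up χ s ∧ ∃ N : ℕ, ∀ k, N ≤ k → g ^ k ∈ up χ s ∧ Conn X (up χ s) (g ^ k) h}

/-- The powers of `g` are eventually connected above any level. -/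
theorem powers (hX : SymGen X) (hχ : IsChar χ) {g : L} (hg : 0 < χ g) (s : ℝ) :
    ∃ N : ℕ, ∀ k, N ≤ k → g ^ k ∈ up χ s ∧ Conn X (up χ s) (g ^ N) (g ^ k) := by
  obtain ⟨s1, _, _, h1⟩ := exists_level hX χ 1 g
  obtain ⟨N, hN⟩ := exists_nat_gt ((max (s - s1) s) / χ g)
  have hN' : max (s - s1) s < N * χ g := (div_lt_iff₀ hg).1 hN
  have hstep : ∀ k, N ≤ k → s ≤ s1 + k * χ g ∧ s ≤ k * χ g := by
    intro k hk
    have hk' : (N : ℝ) ≤ k := by exact_mod_cast hk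
    have := mul_le_mul_of_nonneg_right hk' hg.le
    have h2 := le_max_left (s - s1) s
    have h3 := le_max_right (s - s1) s
    constructor <;> linarith
  have hmem : ∀ k, N ≤ k → g ^ k ∈ up χ s := by
    intro k hk
    change s ≤ χ (g ^ k)
    rw [hχ.pow]
    exact (hstep k hk).2
  refine ⟨N, fun k hk => ⟨hmem k hk, ?_⟩⟩
  induction k, hk using Nat.le_induction with
  | base => exact Conn.refl _
  | succ k hk ih =>
    refine ih.trans ?_
    have h2 := Conn.up_translate hχ (g ^ k) h1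
    rw [mul_one, ← pow_succ, hχ.pow] at h2
    refine h2.mono ?_
    intro z hz
    change s ≤ χ z
    have hz' : s1 + k * χ g ≤ χ z := hz
    have := (hstep k hk).1
    linarith

theorem endOf_eq (hX : SymGen X) (hχ : IsChar χ) {g : L} (hg : 0 < χ g) (s : ℝ) :
    ∃ N : ℕ, g ^ N ∈ up χ s ∧
      endOf X χ g s = {h | h ∈ up χ s ∧ Conn X (up χ s) (g ^ N) h} := by
  obtain ⟨N, hN⟩ := powers hX hχ hg s
  refine ⟨N, (hN N le_rfl).1, ?_⟩
  ext h
  constructor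
  · rintro ⟨h1, M, hM⟩
    refine ⟨h1, ?_⟩
    exact (hN (max N M) (le_max_left _ _)).2.trans (hM (max N M) (le_max_right _ _)).2
  · rintro ⟨h1, h2⟩
    exact ⟨h1, N, fun k hk => ⟨(hN k hk).1, ((hN k hk).2.symm hX).trans h2⟩⟩

theorem endOf_isEnd (hX : SymGen X) (hχ : IsChar χ) {g : L} (hg : 0 < χ g) :
    IsEnd X χ (endOf X χ g) := by
  refine ⟨?_, ?_⟩
  · intro s
    obtain ⟨N, h1, h2⟩ := endOf_eq hX hχ hg s
    exact ⟨g ^ N, h1, h2⟩
  · intro s s' hss h hh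
    obtain ⟨h1, N, hN⟩ := hh
    have hsub : up χ s' ⊆ up χ s := fun z hz => le_trans hss hz
    exact ⟨hsub h1, N, fun k hk => ⟨hsub (hN k hk).1, (hN k hk).2.mono hsub⟩⟩

theorem endOf_sub (hχ : IsChar χ) (g h : L) (s : ℝ) (hh : h ∈ endOf X χ g s) :
    g * h ∈ endOf X χ g (s + χ g) := by
  obtain ⟨h1, N, hN⟩ := hh
  refine ⟨?_, N + 1, ?_⟩
  · change s + χ g ≤ χ (g * h)
    rw [hχ]
    have : s ≤ χ h := h1
    linarith
  · intro k hk
    obtain ⟨j, rfl⟩ : ∃ j, k = j + 1 := ⟨k - 1, by omega⟩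
    have h2 := hN j (by omega)
    have e : g ^ (j + 1) = g * g ^ j := pow_succ' g j
    rw [e]
    refine ⟨?_, Conn.up_translate hχ g h2.2⟩
    change s + χ g ≤ χ (g * g ^ j)
    rw [hχ]
    have : s ≤ χ (g ^ j) := h2.1
    linarith

theorem endOf_sub' (hχ : IsChar χ) (g h : L) (s : ℝ) (hh : g * h ∈ endOf X χ g (s + χ g)) :
    h ∈ endOf X χ g s := by
  obtain ⟨h1, N, hN⟩ := hh
  have hup : ∀ z : L, g * z ∈ up χ (s + χ g) → z ∈ up χ s := by
    intro z hz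
    change s ≤ χ z
    have h3 : s + χ g ≤ χ (g * z) := hz
    rw [hχ] at h3
    linarith
  refine ⟨hup h h1, N, ?_⟩
  intro k hk
  have h2 := hN (k + 1) (by omega)
  have e : g ^ (k + 1) = g * g ^ k := pow_succ' g k
  rw [e] at h2
  refine ⟨hup _ h2.1, ?_⟩
  have h3 := Conn.up_translate hχ g⁻¹ h2.2
  rw [inv_mul_cancel_left, inv_mul_cancel_left, hχ.inv] at h3
  refine h3.mono ?_
  intro z hz
  change s ≤ χ z
  have h4 : s + χ g + -χ g ≤ χ z := hz
  linarith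

theorem endOf_fix (hχ : IsChar χ) (g : L) : actF χ g (endOf X χ g) = endOf X χ g := by
  funext s
  ext h
  change g⁻¹ * h ∈ endOf X χ g (s - χ g) ↔ h ∈ endOf X χ g s
  constructor
  · intro hh
    have := endOf_sub hχ g _ _ hh
    rwa [mul_inv_cancel_left, sub_add_cancel] at this
  · intro hh
    refine endOf_sub' hχ g _ _ ?_
    rwa [mul_inv_cancel_left, sub_add_cancel]

theorem E5 : GoalE5.{u} := by
  intro L _ X χ hX hχ g hg
  rcases lt_or_gt_of_ne hg with h | h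
  · have hinv : 0 < χ g⁻¹ := by rw [hχ.inv]; linarith
    refine ⟨endOf X χ g⁻¹, endOf_isEnd hX hχ hinv, ?_⟩
    have h1 : actF χ g⁻¹ (endOf X χ g⁻¹) = endOf X χ g⁻¹ := endOf_fix hχ g⁻¹
    calc actF χ g (endOf X χ g⁻¹) = actF χ g (actF χ g⁻¹ (endOf X χ g⁻¹)) := by rw [h1]
      _ = actF χ (g * g⁻¹) (endOf X χ g⁻¹) := (actF_mul' hχ g g⁻¹ _).symm
      _ = endOf X χ g⁻¹ := by rw [mul_inv_cancel]; exact actF_one' hχ _
  · exact ⟨endOf X χ g, endOf_isEnd hX hχ h, endOf_fix hχ g⟩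

end Pool.Agent.Helper41.RO
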